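import Pool.Agent.helper24.SK.Spec

/-!
# Row sk:WNF (MP_5628fe_nt), owner helper24: the window and its mass
-/

set_option autoImplicit false

namespace Pool.Agent.SK

open Finset ArithmeticFunction MeasureTheory
open Pool.Agent.CH (nit DPb Win Tset ph)
open Pool.Agent.EC (tri vN fN XN TL AdT)
open Pool.Agent.helper85.BVP (tau)
open GD (ks)

private theorem WNF_key (N : ℕ) (hN : 3 ≤ N) :
    3 * Real.log N + 9 / (4 * (N : ℝ)) ≤ 3 * Real.log ((N : ℝ) + 1) := by
  have hN0 : (3 : ℝ) ≤ N := by exact_mod_cast hN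
  have hp : (0 : ℝ) < N := by linarith
  have h1 := Real.one_sub_inv_le_log_of_pos (x := ((N : ℝ) + 1) / N) (by positivity)
  rw [Real.log_div (by positivity) (by positivity), inv_div] at h1
  have h2 : 1 - (N : ℝ) / (N + 1) = 1 / (N + 1) := by
    field_simp
    ring
  rw [h2] at h1
  have h3 : 9 / (4 * (N : ℝ)) ≤ 3 * (1 / ((N : ℝ) + 1)) := by
    rw [mul_one_div, div_le_div_iff₀ (by positivity) (by positivity)]
    linarith
  linarith

private theorem WNF_logcube (N : ℕ) : Real.log (((N ^ 3 : ℕ) : ℝ)) = 3 * Real.log N := by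
  push_cast
  rw [Real.log_pow]
  norm_num

private theorem WNF_cont (v δ : ℝ) : Continuous (tr0 v δ) := by
  unfold tr0
  fun_prop

private theorem WNF_clp_mono : Monotone clp := by
  intro x y h
  unfold clp
  exact max_le_max le_rfl (min_le_min le_rfl h)

private theorem WNF_clp_bd (x : ℝ) : 0 ≤ clp x ∧ clp x ≤ 1 := by
  unfold clp
  exact ⟨le_max_left _ _, max_le zero_le_one (min_le_left _ _)⟩

private theorem WNF_mono (a b : ℕ) (ha : 1 ≤ a) (hab : a ≤ b) (f : ℝ → ℝ)
    (hf : MonotoneOn f (Set.Icc (a : ℝ) b)) (h0 : ∀ x, 0 ≤ f x) (h1 : ∀ x, f x ≤ 1) :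
    ∫ x in (a : ℝ)..b, f x ≤ ∑ m ∈ Ioc a b, f m ∧ ∑ m ∈ Ioc a b, f m ≤ (∫ x in (a : ℝ)..b, f x) + 1 := by
  have e1 := hf.integral_le_sum_Ico hab
  have e2 := hf.sum_le_integral_Ico hab
  have e3 : ∑ i ∈ Ico a b, f ((i + 1 : ℕ) : ℝ) = ∑ m ∈ Ioc a b, f m := by
    rw [← Finset.sum_image (f := fun m : ℕ => f (m : ℝ)) (s := Ico a b) (g := fun i => i + 1)]
    · congr 1
      ext m
      simp only [mem_image, mem_Ico, mem_Ioc]
      constructor
      · rintro ⟨i, hi, rfl⟩
        omega
      · intro hm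
        exact ⟨m - 1, by omega, by omega⟩
    · intro x _ y _ h
      simpa using h
  have e4 : ∑ i ∈ Ico a b, f ((i : ℕ) : ℝ) + f b = ∑ m ∈ Ioc a b, f m + f a := by
    have := Finset.sum_range_succ (fun i : ℕ => f (i : ℝ)) b
    have t1 : ∑ i ∈ Icc a b, f ((i : ℕ) : ℝ) = ∑ i ∈ Ico a b, f ((i : ℕ) : ℝ) + f b := by
      rw [← Finset.Ico_insert_right hab, Finset.sum_insert (by simp), add_comm]
    have t2 : ∑ i ∈ Icc a b, f ((i : ℕ) : ℝ) = ∑ i ∈ Ioc a b, f ((i : ℕ) : ℝ) + f a := by
      rw [← Finset.Ioc_insert_left hab, Finset.sum_insert (by simp), add_comm]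
    rw [← t1, t2]
  rw [e3] at e1
  refine ⟨e1, ?_⟩
  have := h0 b
  have := h1 b
  have := h0 a
  linarith

theorem WNF (h1 : TRB_stmt) : WNF_stmt := by
  refine ⟨5, fun N hN => ?_⟩
  have hN5 : (5 : ℝ) ≤ N := by exact_mod_cast hN
  have hp : (0 : ℝ) < N := by linarith
  have hδ : 0 < 1 / (N : ℝ) := by positivity
  obtain ⟨hb, hz, -, -, hint, hdiff, -, -⟩ := h1 (vN N) (1 / (N : ℝ)) hδ
  have hkey := WNF_key N (by omega)
  have hv : vN N = 3 * Real.log N + 5 / (4 * (N : ℝ)) := rfl
  have hq : 5 / (4 * (N : ℝ)) = 5 / 4 * (1 / N) := by ring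
  have hq9 : 9 / (4 * (N : ℝ)) = 9 / 4 * (1 / N) := by ring
  have hsub : Win N ⊆ Ioc 0 (64 * N ^ 3) := by
    intro m hm
    unfold Win at hm
    rw [mem_Ioc] at hm ⊢
    refine ⟨by omega, hm.2.trans ?_⟩
    calc (N + 1) ^ 3 ≤ (4 * N) ^ 3 := Nat.pow_le_pow_left (by omega) 3
      _ = 64 * N ^ 3 := by ring
  refine ⟨?_, fun c => ?_, ?_⟩
  · have e1 : vN N - 3 * Real.log N = 5 / (4 * (N : ℝ)) := by rw [hv]; ring
    rw [e1, abs_of_pos (by positivity), div_le_one (by positivity)]
    linarith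
  · have e1 : ∑ m ∈ Win N, c m * ((fN N m : ℝ) : ℂ) =
        ∑ m ∈ Win N, c m * ((tr0 (vN N) (1 / (N : ℝ)) (Real.log m) : ℝ) : ℂ) := rfl
    rw [e1]
    refine sum_subset hsub fun m hm hm2 => ?_
    have hm0 : 0 < m := (mem_Ioc.1 hm).1
    have hmr : (0 : ℝ) < m := by exact_mod_cast hm0
    have e2 : tr0 (vN N) (1 / (N : ℝ)) (Real.log m) = 0 := by
      apply hz
      by_cases hc : m ≤ N ^ 3
      · have e3 : Real.log m ≤ 3 * Real.log N := by
          rw [← WNF_logcube]
          exact Real.log_le_log hmr (by exact_mod_cast hc)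
        rw [abs_sub_comm]
        refine le_trans ?_ (le_abs_self _)
        rw [hv, hq]
        linarith
      · have hc2 : (N + 1) ^ 3 < m := by
          by_contra h
          exact hm2 (by unfold Win; rw [mem_Ioc]; omega)
        have e3 : 3 * Real.log ((N : ℝ) + 1) ≤ Real.log m := by
          have := WNF_logcube (N + 1)
          rw [show (((N + 1 : ℕ) : ℝ)) = (N : ℝ) + 1 by push_cast; ring] at this
          rw [← this]
          exact Real.log_le_log (by positivity) (by exact_mod_cast hc2.le)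
        refine le_trans ?_ (le_abs_self _)
        rw [hv, hq]
        rw [hq9] at hkey
        linarith
    rw [e2]
    simp
  · set a : ℕ := N ^ 3 with ha
    set b : ℕ := (N + 1) ^ 3 with hbb
    have hab : a ≤ b := Nat.pow_le_pow_left (by omega) 3
    have ha1 : 1 ≤ a := Nat.one_le_pow _ _ (by omega)
    have har : (0 : ℝ) < a := by exact_mod_cast ha1
    have hmon : ∀ i : ℝ, MonotoneOn (fun u : ℝ => clp ((Real.log u - vN N) / (1 / (N : ℝ)) + i))
        (Set.Icc (a : ℝ) b) := by
      intro i x hx y hy hxy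
      apply WNF_clp_mono
      have : Real.log x ≤ Real.log y := Real.log_le_log (har.trans_le hx.1) hxy
      have t := div_le_div_of_nonneg_right (sub_le_sub_right this (vN N)) hδ.le
      linarith
    have hA := WNF_mono a b ha1 hab _ (hmon 1) (fun x => (WNF_clp_bd _).1) (fun x => (WNF_clp_bd _).2)
    have hB := WNF_mono a b ha1 hab _ (hmon 0) (fun x => (WNF_clp_bd _).1) (fun x => (WNF_clp_bd _).2)
    have hiI : ∀ i : ℝ, IntervalIntegrable (fun u : ℝ => clp ((Real.log u - vN N) / (1 / (N : ℝ)) + i))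
        volume (a : ℝ) b := by
      intro i
      apply MonotoneOn.intervalIntegrable
      rw [Set.uIcc_of_le (by exact_mod_cast hab)]
      exact hmon i
    have hX : XN N = ∑ m ∈ Ioc a b, clp ((Real.log (m : ℝ) - vN N) / (1 / (N : ℝ)) + 1) -
        ∑ m ∈ Ioc a b, clp ((Real.log (m : ℝ) - vN N) / (1 / (N : ℝ)) + 0) := by
      rw [← Finset.sum_sub_distrib]
      refine Finset.sum_congr rfl fun m _ => ?_
      have := hdiff (Real.log m)
      rw [add_zero]
      exact this
    have hI : (∫ u in (a : ℝ)..b, clp ((Real.log u - vN N) / (1 / (N : ℝ)) + 1)) -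
        (∫ u in (a : ℝ)..b, clp ((Real.log u - vN N) / (1 / (N : ℝ)) + 0)) =
        ∫ u in (a : ℝ)..b, tr0 (vN N) (1 / (N : ℝ)) (Real.log u) := by
      rw [← intervalIntegral.integral_sub (hiI 1) (hiI 0)]
      congr 1
      funext u
      rw [hdiff, add_zero]
    have hea : Real.exp (3 * Real.log N) = a := by
      rw [← WNF_logcube, Real.exp_log har]
    have heb : Real.exp (3 * Real.log ((N : ℝ) + 1)) = b := by
      have := WNF_logcube (N + 1)
      rw [show (((N + 1 : ℕ) : ℝ)) = (N : ℝ) + 1 by push_cast; ring] at this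
      rw [← this, Real.exp_log (by exact_mod_cast (ha1.trans hab))]
    have hle : 3 * Real.log N ≤ 3 * Real.log ((N : ℝ) + 1) := by
      have : 0 < 9 / (4 * (N : ℝ)) := by positivity
      linarith
    have hsubst : ∫ u in (a : ℝ)..b, tr0 (vN N) (1 / (N : ℝ)) (Real.log u) =
        ∫ w in (3 * Real.log N)..(3 * Real.log ((N : ℝ) + 1)),
          tr0 (vN N) (1 / (N : ℝ)) w * Real.exp w := by
      have := intervalIntegral.integral_comp_mul_deriv'' (a := 3 * Real.log N)
        (b := 3 * Real.log ((N : ℝ) + 1)) (f := Real.exp) (f' := Real.exp)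
        (g := fun u => tr0 (vN N) (1 / (N : ℝ)) (Real.log u)) Real.continuous_exp.continuousOn
        (fun x _ => (Real.hasDerivAt_exp x).hasDerivWithinAt) Real.continuous_exp.continuousOn
        (by
          refine (WNF_cont _ _).comp_continuousOn ?_
          refine Real.continuousOn_log.mono ?_
          rintro y ⟨x, -, rfl⟩
          exact (Real.exp_pos x).ne')
      rw [hea, heb] at this
      rw [← this]
      refine intervalIntegral.integral_congr fun w _ => ?_
      simp only [Function.comp, Real.log_exp]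
    have hsupp : ∫ w in (3 * Real.log N)..(3 * Real.log ((N : ℝ) + 1)), tr0 (vN N) (1 / (N : ℝ)) w =
        1 / (N : ℝ) := by
      rw [intervalIntegral.integral_eq_integral_of_support_subset, hint]
      intro w hw
      have hw2 : |w - vN N| < 1 / (N : ℝ) := by
        by_contra h
        exact hw (hz w (not_lt.1 h))
      rw [abs_lt, hv, hq] at hw2
      rw [hq9] at hkey
      constructor
      · linarith [hw2.1]
      · linarith [hw2.2]
    have hlow : (a : ℝ) * (1 / N) ≤ ∫ w in (3 * Real.log N)..(3 * Real.log ((N : ℝ) + 1)),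
          tr0 (vN N) (1 / (N : ℝ)) w * Real.exp w := by
      have e0 : (a : ℝ) * (1 / N) = ∫ w in (3 * Real.log N)..(3 * Real.log ((N : ℝ) + 1)),
          (a : ℝ) * tr0 (vN N) (1 / (N : ℝ)) w := by
        rw [intervalIntegral.integral_const_mul, hsupp]
      rw [e0]
      refine intervalIntegral.integral_mono_on hle ?_ ?_ fun w hw => ?_
      · exact (continuous_const.mul (WNF_cont _ _)).intervalIntegrable _ _
      · exact ((WNF_cont _ _).mul Real.continuous_exp).intervalIntegrable _ _
      · rw [mul_comm]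
        refine mul_le_mul_of_nonneg_left ?_ (hb w).1
        rw [← hea]
        exact Real.exp_le_exp.2 hw.1
    have hupp : ∫ w in (3 * Real.log N)..(3 * Real.log ((N : ℝ) + 1)),
          tr0 (vN N) (1 / (N : ℝ)) w * Real.exp w ≤ (a : ℝ) * Real.exp (9 / (4 * (N : ℝ))) * (1 / N) := by
      have e0 : (a : ℝ) * Real.exp (9 / (4 * (N : ℝ))) * (1 / N) =
          ∫ w in (3 * Real.log N)..(3 * Real.log ((N : ℝ) + 1)),
          (a : ℝ) * Real.exp (9 / (4 * (N : ℝ))) * tr0 (vN N) (1 / (N : ℝ)) w := by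
        rw [intervalIntegral.integral_const_mul, hsupp]
      rw [e0]
      refine intervalIntegral.integral_mono_on hle ?_ ?_ fun w hw => ?_
      · exact ((WNF_cont _ _).mul Real.continuous_exp).intervalIntegrable _ _
      · exact (continuous_const.mul (WNF_cont _ _)).intervalIntegrable _ _
      · rw [mul_comm]
        by_cases hc : tr0 (vN N) (1 / (N : ℝ)) w = 0
        · rw [hc]; simp
        · refine mul_le_mul_of_nonneg_right ?_ (hb w).1
          rw [← hea, ← Real.exp_add]
          apply Real.exp_le_exp.2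
          have hw2 : |w - vN N| < 1 / (N : ℝ) := by
            by_contra h
            exact hc (hz w (not_lt.1 h))
          rw [abs_lt, hv, hq] at hw2
          rw [hq9]
          linarith [hw2.2]
    have hexp : Real.exp (9 / (4 * (N : ℝ))) ≤ 1 + 9 / (2 * (N : ℝ)) := by
      have hx1 : 9 / (4 * (N : ℝ)) ≤ 1 / 2 := by
        rw [div_le_div_iff₀ (by positivity) (by norm_num)]
        linarith
      have hx0 : 0 ≤ 9 / (4 * (N : ℝ)) := by positivity
      have e1 := Real.exp_bound_div_one_sub_of_interval hx0 (by linarith)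
      refine e1.trans ?_
      have e2 : 9 / (2 * (N : ℝ)) = 2 * (9 / (4 * (N : ℝ))) := by ring
      rw [e2, div_le_iff₀ (by linarith)]
      nlinarith
    have haN : (a : ℝ) * (1 / N) = (N : ℝ) ^ 2 := by
      rw [ha]
      push_cast
      field_simp
    have hupp2 : (a : ℝ) * Real.exp (9 / (4 * (N : ℝ))) * (1 / N) ≤ (N : ℝ) ^ 2 + 9 / 2 * N := by
      calc (a : ℝ) * Real.exp (9 / (4 * (N : ℝ))) * (1 / N) = (N : ℝ) ^ 2 * Real.exp (9 / (4 * (N : ℝ))) := by
            rw [← haN]; ring
        _ ≤ (N : ℝ) ^ 2 * (1 + 9 / (2 * (N : ℝ))) := mul_le_mul_of_nonneg_left hexp (by positivity)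
        _ = (N : ℝ) ^ 2 + 9 / 2 * N := by
            field_simp
    rw [hX, abs_le]
    constructor
    · linarith [hA.1, hB.2]
    · linarith [hA.2, hB.1]

end Pool.Agent.SK
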